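import Pool.Agent.Run7.h664.FH.TDefs

/-!
# The pieces VSUB, OSUB, AMEM, LMEM of the project TF of helper664 (helper301)
-/

set_option autoImplicit false

namespace Run7.h301.TF

open Run7.h664.FH

lemma apply_inv (g : Equiv.Perm C) (c : C) : g (g⁻¹ c) = c := Equiv.apply_symm_apply g c

lemma inv_apply (g : Equiv.Perm C) (c : C) : g⁻¹ (g c) = c := Equiv.symm_apply_apply g c

lemma cons_inj {a b : Bool} {c d : C} (h : cons a c = cons b d) : a = b ∧ c = d :=
  ⟨congrFun h 0, funext fun n => congrFun h (n + 1)⟩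

lemma pre_append (u w : List Bool) (c : C) : pre (u ++ w) c = pre u (pre w c) := by
  induction u with
  | nil => rfl
  | cons a u ih => simp [pre, ih]

lemma pre_eq (v : List Bool) : ∀ (u : List Bool) (c d : C), pre v c = pre u d →
    (∃ w, v = u ++ w ∧ d = pre w c) ∨ (∃ w, u = v ++ w ∧ c = pre w d) := by
  induction v with
  | nil =>
    intro u c d h
    exact Or.inr ⟨u, rfl, h⟩
  | cons a v ih =>
    intro u c d h
    cases u with
    | nil => exact Or.inl ⟨a :: v, rfl, h.symm⟩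
    | cons b u =>
      obtain ⟨rfl, h'⟩ := cons_inj (h : cons a (pre v c) = cons b (pre u d))
      rcases ih u c d h' with ⟨w, rfl, h2⟩ | ⟨w, rfl, h2⟩
      · exact Or.inl ⟨w, rfl, h2⟩
      · exact Or.inr ⟨w, rfl, h2⟩

theorem t_VSUB : S_VSUB := by
  refine ⟨fun c => ⟨[], [], c, rfl, fun _ => rfl⟩, ?_, ?_⟩
  · intro g h hg hh c
    obtain ⟨u, v, c1, rfl, h1⟩ := hh c
    obtain ⟨u', v', c2, h2, h3⟩ := hg (pre v c1)
    rcases pre_eq v u' c1 c2 h2 with ⟨w, rfl, rfl⟩ | ⟨w, rfl, rfl⟩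
    · refine ⟨u, v' ++ w, c1, rfl, fun c'' => ?_⟩
      rw [Equiv.Perm.mul_apply, h1, pre_append, h3, pre_append]
    · refine ⟨u ++ w, v', c2, (pre_append _ _ _).symm, fun c'' => ?_⟩
      rw [Equiv.Perm.mul_apply, pre_append, h1, ← pre_append, h3]
  · intro g hg c
    obtain ⟨u, v, c', h1, h2⟩ := hg (g⁻¹ c)
    refine ⟨v, u, c', ?_, fun c'' => ?_⟩
    · rw [← h2, ← h1, apply_inv]
    · rw [← h2, inv_apply]

lemma lt_asymm {a b : C} (h : lt a b) (h' : lt b a) : False := by
  obtain ⟨n, h1, h2, h3⟩ := h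
  obtain ⟨m, h4, h5, h6⟩ := h'
  rcases lt_trichotomy n m with h | rfl | h
  · have := h4 n h
    rw [h2, h3] at this
    cases this
  · rw [h2] at h6
    cases h6
  · have := h1 m h
    rw [h5, h6] at this
    cases this

lemma lt_irrefl (a : C) (h : lt a a) : False := lt_asymm h h

lemma lt_total {a b : C} (h : a ≠ b) : lt a b ∨ lt b a := by
  classical
  have h1 : ∃ n, a n ≠ b n := by
    by_contra hcon
    push Not at hcon
    exact h (funext hcon)
  have h2 := Nat.find_spec h1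
  have h3 : ∀ i < Nat.find h1, a i = b i := fun i hi => by
    by_contra hne
    exact Nat.find_min h1 hi hne
  cases ha : a (Nat.find h1) <;> cases hb : b (Nat.find h1)
  · rw [ha, hb] at h2
    exact absurd rfl h2
  · exact Or.inl ⟨_, h3, ha, hb⟩
  · exact Or.inr ⟨_, fun i hi => (h3 i hi).symm, hb, ha⟩
  · rw [ha, hb] at h2
    exact absurd rfl h2

lemma lt_trans {a b c : C} (h : lt a b) (h' : lt b c) : lt a c := by
  obtain ⟨n, h1, h2, h3⟩ := h
  obtain ⟨m, h4, h5, h6⟩ := h'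
  rcases lt_trichotomy n m with h | rfl | h
  · exact ⟨n, fun i hi => (h1 i hi).trans (h4 i (hi.trans h)), h2, by rw [← h4 n h]; exact h3⟩
  · rw [h3] at h5
    cases h5
  · exact ⟨m, fun i hi => (h1 i (hi.trans h)).trans (h4 i hi), by rw [h1 m h]; exact h5, h6⟩

lemma cyc_asymm {a b c : C} (h : cyc a b c) (h' : cyc a c b) : False := by
  rcases h with ⟨h1, h2⟩ | ⟨h1, h2⟩ | ⟨h1, h2⟩ <;> rcases h' with ⟨h3, h4⟩ | ⟨h3, h4⟩ | ⟨h3, h4⟩
  · exact lt_asymm h2 h4
  · exact lt_asymm h2 h3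
  · exact lt_asymm h1 h3
  · exact lt_asymm h1 h4
  · exact lt_asymm h1 h3
  · exact lt_asymm h2 h4
  · exact lt_asymm h1 h3
  · exact lt_asymm h2 h4
  · exact lt_asymm h2 h3

lemma cyc_ne {a b c : C} (h : cyc a b c) : a ≠ b ∧ b ≠ c ∧ a ≠ c := by
  refine ⟨?_, ?_, ?_⟩
  · rintro rfl
    rcases h with ⟨h1, h2⟩ | ⟨h1, h2⟩ | ⟨h1, h2⟩
    · exact lt_irrefl _ h1
    · exact lt_asymm h1 h2
    · exact lt_irrefl _ h2
  · rintro rfl
    rcases h with ⟨h1, h2⟩ | ⟨h1, h2⟩ | ⟨h1, h2⟩
    · exact lt_irrefl _ h2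
    · exact lt_irrefl _ h1
    · exact lt_asymm h1 h2
  · rintro rfl
    rcases h with ⟨h1, h2⟩ | ⟨h1, h2⟩ | ⟨h1, h2⟩
    · exact lt_asymm h1 h2
    · exact lt_irrefl _ h2
    · exact lt_irrefl _ h1

lemma cyc_total {a b c : C} (h1 : a ≠ b) (h2 : b ≠ c) (h3 : a ≠ c) : cyc a b c ∨ cyc a c b := by
  rcases lt_total h1 with h1 | h1 <;> rcases lt_total h2 with h2 | h2 <;>
    rcases lt_total h3 with h3 | h3 <;> simp only [cyc] <;> tauto

theorem t_OSUB : S_OSUB := by
  refine ⟨fun g hg c c' h => ?_, fun g hg a b c h => ?_⟩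
  · by_cases hne : g⁻¹ c = g⁻¹ c'
    · rw [g⁻¹.injective hne] at h
      exact (lt_irrefl _ h).elim
    · rcases lt_total hne with h1 | h1
      · exact h1
      · have h2 := hg _ _ h1
        rw [apply_inv, apply_inv] at h2
        exact (lt_asymm h h2).elim
  · obtain ⟨h1, h2, h3⟩ := cyc_ne h
    rcases cyc_total (g⁻¹.injective.ne h1) (g⁻¹.injective.ne h2) (g⁻¹.injective.ne h3) with h4 | h4
    · exact h4
    · have h5 := hg _ _ _ h4
      simp only [apply_inv] at h5
      exact (cyc_asymm h h5).elim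

lemma lt_cons {a b : Bool} {c d : C} :
    lt (cons a c) (cons b d) ↔ (a = false ∧ b = true) ∨ (a = b ∧ lt c d) := by
  constructor
  · rintro ⟨n, h1, h2, h3⟩
    cases n with
    | zero => exact Or.inl ⟨h2, h3⟩
    | succ n =>
      exact Or.inr ⟨h1 0 (Nat.succ_pos n), n, fun i hi => h1 (i + 1) (Nat.succ_lt_succ hi), h2, h3⟩
  · rintro (⟨rfl, rfl⟩ | ⟨rfl, n, h1, h2, h3⟩)
    · exact ⟨0, fun i hi => absurd hi (Nat.not_lt_zero i), rfl, rfl⟩
    · refine ⟨n + 1, fun i hi => ?_, h2, h3⟩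
      cases i with
      | zero => rfl
      | succ i => exact h1 i (Nat.lt_of_succ_lt_succ hi)

theorem t_AMEM : S_AMEM := by
  constructor
  · intro c
    obtain ⟨a, c1, rfl⟩ := cases_cons c
    obtain ⟨b, c2, rfl⟩ := cases_cons c1
    rcases a with _ | _
    · rcases b with _ | _
      · exact ⟨[false, false], [false], c2, rfl, fun _ => rfl⟩
      · exact ⟨[false, true], [true, false], c2, rfl, fun _ => rfl⟩
    · exact ⟨[true], [true, true], _, rfl, fun _ => rfl⟩
  · intro c d h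
    obtain ⟨a, c1, rfl⟩ := cases_cons c
    obtain ⟨b, c2, rfl⟩ := cases_cons c1
    obtain ⟨a', d1, rfl⟩ := cases_cons d
    obtain ⟨b', d2, rfl⟩ := cases_cons d1
    have e0 : ∀ x : C, al (cons false (cons false x)) = cons false x := fun _ => rfl
    have e1 : ∀ x : C, al (cons false (cons true x)) = cons true (cons false x) := fun _ => rfl
    have e2 : ∀ (y : Bool) (x : C), al (cons true (cons y x)) = cons true (cons true (cons y x)) :=
      fun _ _ => rfl
    rcases a with _ | _ <;> rcases b with _ | _ <;> rcases a' with _ | _ <;>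
      rcases b' with _ | _ <;> simp only [e0, e1, e2, lt_cons] at h ⊢ <;> simp at h ⊢ <;>
      exact h

theorem t_LMEM : S_LMEM := by
  intro b p
  refine ⟨fun h c => ?_, fun h c d hcd => ?_⟩
  · obtain ⟨a, c1, rfl⟩ := cases_cons c
    by_cases hab : a = b
    · subst hab
      obtain ⟨u, v, c', rfl, h2⟩ := h c1
      refine ⟨a :: u, a :: v, c', rfl, fun c'' => ?_⟩
      change LL a p (cons a (pre u c'')) = cons a (pre v c'')
      rw [LL_same, h2]
    · exact ⟨[a], [a], c1, rfl, fun c'' => LL_other hab p c''⟩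
  · obtain ⟨a, c1, rfl⟩ := cases_cons c
    obtain ⟨a', d1, rfl⟩ := cases_cons d
    rw [lt_cons] at hcd
    by_cases h1 : a = b
    · subst h1
      rw [LL_same]
      by_cases h2 : a' = a
      · subst h2
        rw [LL_same, lt_cons]
        rcases hcd with h3 | ⟨-, h3⟩
        · exact Or.inl h3
        · exact Or.inr ⟨rfl, h _ _ h3⟩
      · rw [LL_other h2, lt_cons]
        rcases hcd with h3 | ⟨h3, -⟩
        · exact Or.inl h3
        · exact absurd h3.symm h2
    · rw [LL_other h1]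
      by_cases h2 : a' = b
      · subst h2
        rw [LL_same, lt_cons]
        rcases hcd with h3 | ⟨h3, -⟩
        · exact Or.inl h3
        · exact absurd h3 h1
      · rw [LL_other h2, lt_cons]
        exact hcd

end Run7.h301.TF
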