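import Pool.Agent.Run7.h301.TF.Part

/-!
# The elements for the criterion of helper986, in every group between `F` and `Perm C` (helper301)
-/

set_option autoImplicit false

namespace Run7.h301.TF

open Run7.h664.FH

/-- The point `w` is in the cylinder `[01]`. -/
def In (w : C) : Prop := w 0 = false ∧ w 1 = true

lemma in_iff {w : C} : In w ↔ ∃ c, w = cons false (cons true c) := by
  constructor
  · rintro ⟨h0, h1⟩
    refine ⟨tl (tl w), ?_⟩
    funext n
    rcases n with _ | _ | n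
    · exact h0
    · exact h1
    · rfl
  · rintro ⟨c, rfl⟩
    exact ⟨rfl, rfl⟩

/-- the element `g₁` -/
def e1 : Equiv.Perm C := LL false al

/-- the element `g₀` -/
def e0 : Equiv.Perm C := LL false al * al⁻¹

/-- the element `x` -/
def ex : Equiv.Perm C := LL false (LL true al)

lemma e1_apply (c : C) : e1 (cons false (cons true c)) = cons false (cons true (cons true c)) :=
  LL_same false al _

lemma e0_apply (c : C) : e0 (cons false (cons true c)) = cons false (cons true (cons false c)) := by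
  have h : al⁻¹ (cons false (cons true c)) = cons false (cons false (cons true c)) := rfl
  rw [e0, Equiv.Perm.mul_apply, h, LL_same]
  rfl

lemma e1_in {w : C} (h : In w) : In (e1 w) ∧ (e1 w) 2 = true := by
  obtain ⟨c, rfl⟩ := in_iff.1 h
  rw [e1_apply]
  exact ⟨⟨rfl, rfl⟩, rfl⟩

lemma e0_in {w : C} (h : In w) : In (e0 w) ∧ (e0 w) 2 = false := by
  obtain ⟨c, rfl⟩ := in_iff.1 h
  rw [e0_apply]
  exact ⟨⟨rfl, rfl⟩, rfl⟩

/-- `g` moves only points of `[01]`. -/
def Fix (g : Equiv.Perm C) : Prop := ∀ w, ¬ In w → g w = w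

lemma conj_fix {e : Equiv.Perm C} {b : Bool} (he : ∀ w, In w → In (e w) ∧ (e w) 2 = b)
    {q : Equiv.Perm C} (hq : Fix q) (w : C) (hw : ¬ (In w ∧ w 2 = b)) : (e * q * e⁻¹) w = w := by
  have h1 : ¬ In (e⁻¹ w) := fun h => hw (by
    have := he _ h
    rwa [apply_inv] at this)
  rw [Equiv.Perm.mul_apply, Equiv.Perm.mul_apply, hq _ h1, apply_inv]

lemma ex_fix : Fix ex := by
  intro w hw
  obtain ⟨a, c1, rfl⟩ := cases_cons w
  obtain ⟨b, c2, rfl⟩ := cases_cons c1
  rcases a with _ | _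
  · rcases b with _ | _
    · rw [ex, LL_same, LL_other (by decide)]
    · exact absurd ⟨rfl, rfl⟩ hw
  · rw [ex, LL_other (by decide)]

lemma ex_ne : ex⁻¹ ≠ ex := by
  intro h
  have h1 : ex (ex (cons false (cons true (cons true fun _ => false)))) =
      cons false (cons true (cons true fun _ => false)) := by
    have h2 := inv_apply ex (cons false (cons true (cons true fun _ => false)))
    rwa [h] at h2
  have h3 : ∀ c, ex (cons false (cons true (cons true c))) =
      cons false (cons true (cons true (cons true c))) := fun c => by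
    rw [ex, LL_same, LL_same]
    rfl
  rw [h3, h3] at h1
  have h4 := congrFun h1 3
  exact absurd h4 (by decide)

lemma al_mem : Loc al ∧ Ord al := t_AMEM

lemma LL_mem {b : Bool} {p : Equiv.Perm C} (h : Loc p ∧ Ord p) : Loc (LL b p) ∧ Ord (LL b p) :=
  ⟨(t_LMEM b p).1 h.1, (t_LMEM b p).2 h.2⟩

lemma ex_mem : Loc ex ∧ Ord ex := LL_mem (LL_mem al_mem)

lemma e1_mem : Loc e1 ∧ Ord e1 := LL_mem al_mem

lemma e0_mem : Loc e0 ∧ Ord e0 := by
  refine ⟨t_VSUB.2.1 _ _ e1_mem.1 (t_VSUB.2.2 _ al_mem.1), fun c c' h => ?_⟩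
  exact e1_mem.2 _ _ (t_OSUB.1 _ al_mem.2 _ _ h)

/-- The data of the criterion, in every group of permutations of Cantor space which contains
Thompson's group `F`. -/
theorem partB (Γ : Subgroup (Equiv.Perm C)) (hF : ∀ g : Equiv.Perm C, Loc g → Ord g → g ∈ Γ) :
    ∃ (Q : Subgroup Γ) (x g0 g1 : Γ), x ∈ Q ∧ x⁻¹ ≠ x ∧ (∀ q ∈ Q, g0 * q * g0⁻¹ ∈ Q) ∧
      (∀ q ∈ Q, g1 * q * g1⁻¹ ∈ Q) ∧
      (∀ q ∈ Q, ∀ r ∈ Q, (g0 * q * g0⁻¹) * (g1 * r * g1⁻¹) = (g1 * r * g1⁻¹) * (g0 * q * g0⁻¹)) ∧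
      (∀ q ∈ Q, ∀ r ∈ Q, g0 * q * g0⁻¹ = g1 * r * g1⁻¹ → q = 1) := by
  let Q : Subgroup Γ :=
    { carrier := {g | Fix (g : Equiv.Perm C)}
      one_mem' := fun w _ => rfl
      mul_mem' := fun {a b} ha hb w hw => by
        change ((a : Equiv.Perm C) * (b : Equiv.Perm C)) w = w
        rw [Equiv.Perm.mul_apply, hb w hw, ha w hw]
      inv_mem' := fun {a} ha w hw => by
        change ((a : Equiv.Perm C)⁻¹) w = w
        have h := ha w hw
        conv_lhs => rw [← h]
        exact inv_apply _ _ }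
  have hQ : ∀ g : Γ, g ∈ Q ↔ Fix (g : Equiv.Perm C) := fun g => Iff.rfl
  let x : Γ := ⟨ex, hF _ ex_mem.1 ex_mem.2⟩
  let g0 : Γ := ⟨e0, hF _ e0_mem.1 e0_mem.2⟩
  let g1 : Γ := ⟨e1, hF _ e1_mem.1 e1_mem.2⟩
  have k0 : ∀ q ∈ Q, ∀ w, ¬ (In w ∧ w 2 = false) →
      ((g0 * q * g0⁻¹ : Γ) : Equiv.Perm C) w = w := fun q hq w hw =>
    conj_fix (e := e0) (fun w h => e0_in h) hq w hw
  have k1 : ∀ q ∈ Q, ∀ w, ¬ (In w ∧ w 2 = true) →
      ((g1 * q * g1⁻¹ : Γ) : Equiv.Perm C) w = w := fun q hq w hw =>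
    conj_fix (e := e1) (fun w h => e1_in h) hq w hw
  have kd : ∀ q ∈ Q, ∀ r ∈ Q, Equiv.Perm.Disjoint ((g0 * q * g0⁻¹ : Γ) : Equiv.Perm C)
      ((g1 * r * g1⁻¹ : Γ) : Equiv.Perm C) := by
    intro q hq r hr w
    by_cases h : In w ∧ w 2 = false
    · right
      refine k1 r hr w fun h' => ?_
      rw [h.2] at h'
      exact absurd h'.2 (by decide)
    · exact Or.inl (k0 q hq w h)
  refine ⟨Q, x, g0, g1, ex_fix, ?_, ?_, ?_, ?_, ?_⟩
  · intro h
    exact ex_ne (congrArg Subtype.val h)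
  · intro q hq
    exact (hQ _).2 fun w hw => k0 q hq w fun h => hw h.1
  · intro q hq
    exact (hQ _).2 fun w hw => k1 q hq w fun h => hw h.1
  · intro q hq r hr
    exact Subtype.ext (kd q hq r hr).commute
  · intro q hq r hr h
    have h1 : ∀ w, ((g0 * q * g0⁻¹ : Γ) : Equiv.Perm C) w = w := by
      intro w
      rcases kd q hq r hr w with h2 | h2
      · exact h2
      · rw [h]
        exact h2
    have h2 : g0 * q * g0⁻¹ = 1 := Subtype.ext (Equiv.ext h1)
    have h3 : g0 * q = g0 := by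
      rw [mul_inv_eq_one] at h2
      exact h2
    exact mul_eq_left.1 h3

end Run7.h301.TF
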